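import Pool.Agent.Helper8.TB.St

/-!
# Project TB (MP_26ac92_gt): module Vol (area formula for the chart of a projection)
-/

set_option autoImplicit false

namespace Pool.Agent.Helper12.TB

open Pool.Helper8.TB MeasureTheory

theorem hVol (hBody : StBody) (hDer : StDer) (hInj : StInj) (hSur : StSur) : StVol := by
  intro m τ ε q q1 p r hm hD e J u he hF μ hμ
  obtain ⟨hcvx, hcpt, -, -⟩ := hBody (m + 1) m τ ε q q1 p r hD e he
  set Φ : W m → W m := fun y' => Jt J (X q p e (nu J u y')) with hΦ
  obtain ⟨hsub, hint⟩ := hSur m τ ε q q1 p r hD e J u he hF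
  have hinj : Set.InjOn Φ (Metric.ball 0 1) := hInj m τ ε q q1 p r hD e J u he hF
  set L : Set (W m) := Jt J '' Bd q p e with hL
  have hLc : Convex ℝ L := hcvx.linear_image (Jt J).toLinearMap
  have hLk : IsCompact L := hcpt.image (Jt J).continuous
  -- the measure of L is the measure of the image of the ball
  have h1 : μ L = μ (Φ '' Metric.ball 0 1) := by
    apply le_antisymm
    · have hfr : μ (frontier L) = 0 := hLc.addHaar_frontier μ
      have hLsub : L ⊆ interior L ∪ frontier L := by
        intro x hx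
        by_cases h : x ∈ interior L
        · exact Or.inl h
        · exact Or.inr ⟨subset_closure hx, h⟩
      calc μ L ≤ μ (interior L ∪ frontier L) := measure_mono hLsub
        _ ≤ μ (interior L) + μ (frontier L) := measure_union_le _ _
        _ = μ (interior L) := by rw [hfr, add_zero]
        _ ≤ μ (Φ '' Metric.ball 0 1) := measure_mono hint
    · exact measure_mono hsub
  rw [h1]
  -- the derivative
  have hder : ∀ y ∈ Metric.ball (0 : W m) 1, ∃ M : W m →L[ℝ] W m, HasFDerivAt Φ M y ∧
      M.det = fd m q r (inner ℝ (nu J u y) e) := by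
    intro y hy
    have hy' : ‖y‖ < 1 := by simpa using hy
    exact hDer m τ ε q q1 p r hm hD e J u he hF y hy'
  choose! M hM hdet using hder
  have hmeas : MeasurableSet (Metric.ball (0 : W m) 1) := Metric.isOpen_ball.measurableSet
  have harea := lintegral_abs_det_fderiv_eq_addHaar_image μ hmeas
    (fun y hy => (hM y hy).hasFDerivWithinAt) hinj
  rw [← harea]
  refine setLIntegral_congr_fun hmeas ?_
  intro y hy
  change ENNReal.ofReal |(M y).det| = ENNReal.ofReal (fd m q r (inner ℝ (nu J u y) e))
  rw [hdet y hy]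
  congr 1
  apply abs_of_pos
  -- positivity of the density
  have hy' : ‖y‖ < 1 := by simpa using hy
  have hnu : ‖nu J u y‖ ≤ 1 := by
    have hsq : ‖nu J u y‖ ^ 2 = 1 := by
      have h2 : ‖nu J u y‖ ^ 2 = ‖J y‖ ^ 2 + ‖Real.sqrt (1 - ‖y‖ ^ 2) • u‖ ^ 2 := by
        unfold nu
        rw [norm_add_sq_real, inner_smul_right, hF.hJ y]
        ring
      rw [h2, J.norm_map, norm_smul, hF.hu, mul_one, Real.norm_eq_abs, sq_abs, Real.sq_sqrt]
      · ring
      · nlinarith [norm_nonneg y]
    nlinarith [norm_nonneg (nu J u y)]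
  set t : ℝ := inner ℝ (nu J u y) e with ht
  have ht1 : t ^ 2 ≤ 1 := by
    have hcs : |t| ≤ ‖nu J u y‖ * ‖e‖ := abs_real_inner_le_norm _ _
    rw [he, mul_one] at hcs
    have : |t| ≤ 1 := hcs.trans hnu
    rw [← sq_abs]
    nlinarith [abs_nonneg t]
  unfold fd
  exact mul_pos (pow_pos (hD.pos t) _) (hD.cvx t ht1)

end Pool.Agent.Helper12.TB
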